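import Pool.Agent.Lib.lead.CXBase

set_option autoImplicit false
open Finset

namespace Pool.Agent.H.MP_21485e_lc
open Pool.Agent.Lib.CX

def Tour {D : Type} (S : D → Prop) (av : D → ℕ → Prop) (t : ℕ) : Prop :=
  ∃ w : ℕ → Option D, w 0 = none ∧ (∀ τ, w (τ + 1) = w τ ∨ ∃ d, S d ∧ av d τ ∧
    ((w τ = none ∧ w (τ + 1) = some d) ∨ (w τ = some d ∧ w (τ + 1) = none))) ∧
    ∀ d, S d → ∃ τ ≤ t, w τ = some d

def Ivl {D : Type} (S : D → Prop) (av : D → ℕ → Prop) (t : ℕ) (e y : D → ℕ) : Prop :=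
  (∀ d, S d → e d < y d ∧ y d ≤ t ∧ av d (e d) ∧ (y d = t ∨ (e d + 2 ≤ y d ∧ av d (y d - 1)))) ∧
    ∀ d, S d → ∀ d', S d' → d ≠ d' → y d ≤ e d' ∨ y d' ≤ e d

lemma tour_iff {D : Type} {S : D → Prop} {av : D → ℕ → Prop} {t : ℕ} :
    Tour S av t ↔ ∃ e y, Ivl S av t e y := by
  classical
  constructor
  · rintro ⟨w, h0, h1, h2⟩
    have key : ∀ d, S d → ∃ e y, (e < y ∧ y ≤ t ∧ av d e ∧ (y = t ∨ (e + 2 ≤ y ∧ av d (y - 1)))) ∧
        w e = none ∧ w (e + 1) = some d ∧ ∀ τ, e < τ → τ < y → w τ = some d := by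
      intro d hd
      have h3 : ∃ τ, w τ = some d := (h2 d hd).imp fun _ h => h.2
      have h4 := Nat.find_spec h3
      have h5 : Nat.find h3 ≤ t := by
        obtain ⟨τ, a, b⟩ := h2 d hd; exact (Nat.find_min' h3 b).trans a
      obtain ⟨e, he⟩ : ∃ e, Nat.find h3 = e + 1 :=
        Nat.exists_eq_succ_of_ne_zero fun h => by rw [h, h0] at h4; cases h4
      have h6 := Nat.find_min h3 (show e < Nat.find h3 by omega)
      rw [he] at h4 h5
      have h7 : w e = none ∧ av d e := by
        rcases h1 e with h | ⟨d', -, a, ⟨b, c⟩ | ⟨b, c⟩⟩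
        · exact absurd (h ▸ h4) h6
        · rw [h4] at c; cases c; exact ⟨b, a⟩
        · rw [h4] at c; cases c
      have h8 : ∃ y, e < y ∧ (y = t ∨ w y ≠ some d) := ⟨t, h5, Or.inl rfl⟩
      have h9 := Nat.find_spec h8
      have h10 : ∀ τ, e < τ → τ < Nat.find h8 → w τ = some d := fun τ a b => by
        have := Nat.find_min h8 b
        push Not at this
        exact (this a).2
      refine ⟨e, Nat.find h8, ⟨h9.1, Nat.find_min' h8 ⟨h5, Or.inl rfl⟩, h7.2, h9.2.imp_right fun h => ?_⟩,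
        h7.1, h4, h10⟩
      have h11 : e + 2 ≤ Nat.find h8 := by
        by_contra h12
        exact h (by rw [show Nat.find h8 = e + 1 by omega, h4])
      have h12 := h10 (Nat.find h8 - 1) (by omega) (by omega)
      have h13 := h1 (Nat.find h8 - 1)
      rw [show Nat.find h8 - 1 + 1 = Nat.find h8 by omega] at h13
      rcases h13 with h13 | ⟨d', -, a, ⟨b, c⟩ | ⟨b, c⟩⟩
      · exact absurd (h13.trans h12) h
      · rw [h12] at b; cases b
      · rw [h12] at b; cases b; exact ⟨h11, a⟩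
    choose! e y he using key
    refine ⟨e, y, fun d hd => (he d hd).1, fun d hd d' hd' hn => ?_⟩
    obtain ⟨-, a1, a2, a3⟩ := he d hd
    obtain ⟨-, b1, b2, b3⟩ := he d' hd'
    by_contra h
    push Not at h
    rcases lt_trichotomy (e d) (e d') with h3 | h3 | h3
    · rw [a3 _ h3 h.1] at b1; cases b1
    · rw [h3, b2] at a2; cases a2; exact hn rfl
    · rw [b3 _ h3 h.2] at a1; cases a1
  · rintro ⟨e, y, h1, h2⟩
    let In : ℕ → D → Prop := fun τ d => S d ∧ e d < τ ∧ (τ < y d ∨ y d = t)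
    have un : ∀ τ d d', In τ d → In τ d' → d = d' := fun τ d d' a b => by
      by_contra h
      have := h2 d a.1 d' b.1 h
      have := h1 d a.1; have := h1 d' b.1
      have := a.2; have := b.2
      omega
    let w : ℕ → Option D := fun τ => if h : ∃ d, In τ d then some h.choose else none
    have w1 : ∀ τ d, In τ d → w τ = some d := fun τ d h => by
      have h3 : ∃ d, In τ d := ⟨d, h⟩
      simp only [w, dif_pos h3, un τ _ _ h3.choose_spec h]
    have w2 : ∀ τ, (¬ ∃ d, In τ d) → w τ = none := fun τ h => dif_neg h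
    refine ⟨w, w2 0 fun ⟨d, h⟩ => by have := h.2; omega, fun τ => ?_, fun d hd => ?_⟩
    · by_cases a : ∃ d, In τ d
      · obtain ⟨d, a⟩ := a
        by_cases b : In (τ + 1) d
        · exact Or.inl ((w1 _ _ b).trans (w1 _ _ a).symm)
        · have c := h1 d a.1
          have c1 := a.2
          have c2 : y d = τ + 1 ∧ y d ≠ t := by
            simp only [In, a.1, true_and] at b; omega
          refine Or.inr ⟨d, a.1, ?_, Or.inr ⟨w1 _ _ a, w2 _ fun ⟨d', h⟩ => ?_⟩⟩
          · have := (c.2.2.2.resolve_left c2.2).2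
            rwa [c2.1] at this
          · have := h2 d a.1 d' h.1 fun h3 => b (h3 ▸ h)
            have := h.2; have := h1 d' h.1
            omega
      · by_cases b : ∃ d, In (τ + 1) d
        · obtain ⟨d, b⟩ := b
          have : e d = τ := by
            by_contra h
            exact a ⟨d, b.1, by have := b.2; omega⟩
          exact Or.inr ⟨d, b.1, this ▸ (h1 d b.1).2.2.1, Or.inl ⟨w2 _ a, w1 _ _ b⟩⟩
        · exact Or.inl ((w2 _ b).trans (w2 _ a).symm)
    · have := h1 d hd
      exact ⟨e d + 1, by omega, w1 _ _ ⟨hd, by omega⟩⟩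

lemma sum_le {D : Type} (A : Finset D) (e y : D → ℕ) (lo hi : ℕ)
    (h1 : ∀ d ∈ A, lo ≤ e d ∧ y d ≤ hi) (h2 : ∀ d ∈ A, ∀ d' ∈ A, d ≠ d' → y d ≤ e d' ∨ y d' ≤ e d) :
    ∑ d ∈ A, (y d - e d) ≤ hi - lo := by
  classical
  have := card_biUnion (s := A) (t := fun d => Ico (e d) (y d)) fun d hd d' hd' h =>
    disjoint_left.2 fun x a b => by
      have := h2 d hd d' hd' h; have := mem_Ico.1 a; have := mem_Ico.1 b; omega
  simp only [Nat.card_Ico] at this
  rw [← this, ← Nat.card_Ico]
  refine card_le_card fun x hx => ?_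
  obtain ⟨d, hd, hx⟩ := mem_biUnion.1 hx
  have := h1 d hd; have := mem_Ico.1 hx
  exact mem_Ico.2 (by omega)

/-- tightness -/
lemma tight {D : Type} {S : Finset D} {av : D → ℕ → Prop} {t N : ℕ} {e y : D → ℕ}
    (h : Ivl (· ∈ S) av t e y) (Z : D → Prop) [DecidablePred Z]
    (hZ : ∀ d, Z d → ∀ τ, av d τ → ¬ av d (τ + 1)) (hN : (S.filter Z).card = N + 1)
    (ht : 2 * S.card + N = t + 1) :
    (∀ d ∈ S, ¬ Z d → av d (e d + 1) ∧ y d = e d + 2) ∧ ∃ f : ℕ → ℕ, Monotone f ∧
      ∀ d ∈ S, f (e d) ≤ N ∧ f (e d) % 2 = e d % 2 := by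
  classical
  obtain ⟨h1, h2⟩ := h
  have sc : ∀ A : Finset D, ∑ d ∈ A, (2 + if Z d then 1 else 0) = 2 * A.card + (A.filter Z).card :=
    fun A => by rw [sum_add_distrib, sum_boole]; simp [mul_comm]
  have a1 : ∀ d ∈ S, (2 + if Z d then 1 else 0) ≤ y d - e d + if y d = t then 2 else 0 := by
    intro d hd
    obtain ⟨b1, b2, b3, b4⟩ := h1 d hd
    split_ifs with c1 c2 c2
    · omega
    · have := b4.resolve_left c2
      by_contra h
      exact hZ d c1 _ b3 (by rw [show e d + 1 = y d - 1 by omega]; exact this.2)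
    · omega
    · omega
  have a2 := sum_le S e y 0 t (fun d hd => ⟨by omega, (h1 d hd).2.1⟩) h2
  have a3 : (S.filter fun d => y d = t).card ≤ 1 := card_le_one.2 fun d hd d' hd' => by
    by_contra h
    obtain ⟨b1, b2⟩ := mem_filter.1 hd
    obtain ⟨b3, b4⟩ := mem_filter.1 hd'
    have := h2 d b1 d' b3 h; have := h1 d b1; have := h1 d' b3
    omega
  have a4 : ∑ d ∈ S, (y d - e d + if y d = t then 2 else 0) =
      ∑ d ∈ S, (y d - e d) + 2 * (S.filter fun d => y d = t).card := by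
    rw [sum_add_distrib, ← sum_filter]; simp [mul_comm]
  have a5 := sum_le_sum a1
  have a6 := (sum_eq_sum_iff_of_le a1).1 (by rw [sc, a4] at *; omega)
  rw [sc, a4] at a5
  obtain ⟨z, hz⟩ := card_pos.1 (show 0 < (S.filter fun d => y d = t).card by omega)
  obtain ⟨z1, z2⟩ := mem_filter.1 hz
  have z3 : Z z := by
    by_contra h
    have := a6 z z1; have := h1 z z1
    rw [if_neg h, if_pos z2] at *
    omega
  refine ⟨fun d hd hn => ?_, fun τ => ((S.filter fun d => y d ≤ τ).filter Z).card,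
    fun τ τ' h => card_le_card (filter_subset_filter _ fun d hd => ?_), fun d hd => ⟨?_, ?_⟩⟩
  · have b := a6 d hd
    obtain ⟨b1, b2, b3, b4⟩ := h1 d hd
    rw [if_neg hn] at b
    split_ifs at b with c
    · omega
    · have := (b4.resolve_left c).2
      rw [show y d - 1 = e d + 1 by omega] at this
      exact ⟨this, by omega⟩
  · exact mem_filter.2 ⟨(mem_filter.1 hd).1, (mem_filter.1 hd).2.trans h⟩
  · have := h1 d hd
    have := card_lt_card (s := (S.filter fun d' => y d' ≤ e d).filter Z) (t := S.filter Z)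
      ⟨filter_subset_filter _ (filter_subset _ _), fun h => by
        have := (mem_filter.1 (mem_filter.1 (h (mem_filter.2 ⟨z1, z3⟩))).1).2
        omega⟩
    simp only
    omega
  · have b0 := h1 d hd
    have b1 := sum_le (S.filter fun d' => y d' ≤ e d) e y 0 (e d)
      (fun d' h => ⟨by omega, (mem_filter.1 h).2⟩)
      fun a ha b hb => h2 a (mem_filter.1 ha).1 b (mem_filter.1 hb).1
    have b2 := sum_le (S.filter fun d' => ¬ y d' ≤ e d) e y (e d) t
      (fun d' h => by
        obtain ⟨c1, c2⟩ := mem_filter.1 h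
        refine ⟨?_, (h1 d' c1).2.1⟩
        by_cases c : d' = d
        · rw [c]
        · have := h2 d' c1 d hd c; omega)
      fun a ha b hb => h2 a (mem_filter.1 ha).1 b (mem_filter.1 hb).1
    have b3 := sum_filter_add_sum_filter_not S (fun d' => y d' ≤ e d) fun d => y d - e d
    have b4 : ∑ d' ∈ S.filter fun d' => y d' ≤ e d, (y d' - e d') =
        ∑ d' ∈ S.filter fun d' => y d' ≤ e d, (2 + if Z d' then 1 else 0) :=
      sum_congr rfl fun d' h => by
        obtain ⟨c1, c2⟩ := mem_filter.1 h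
        rw [a6 d' c1, if_neg (by omega), add_zero]
    rw [sc] at b4
    simp only
    omega

end Pool.Agent.H.MP_21485e_lc
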