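import Pool.Agent.H.MP_21485e_lc.A

set_option autoImplicit false
open Finset

namespace Pool.Agent.H.MP_21485e_lc
open Pool.Agent.Lib.CX

def lits (φ : List (Cl3 ℕ)) (c : ℕ) : List (ℕ × Bool) :=
  [(φ.getD c ((0, true), (0, true), (0, true))).1, (φ.getD c ((0, true), (0, true), (0, true))).2.1,
    (φ.getD c ((0, true), (0, true), (0, true))).2.2]

def Ls (M : ℕ) : List (ℕ × ℕ × ℕ) :=
  (List.range 4 ×ˢ List.range (3 * M + 1) ×ˢ List.range (2 * M + 2)).filter fun d =>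
    (d.1 < 2 ∧ d.2.2 = 0) ∨ (d.1 = 2 ∧ d.2.1 < M ∧ d.2.2 = 0) ∨ (d.1 = 3 ∧ d.2.1 < 3 * M)

lemma mem_Ls {M a i k : ℕ} : (a, i, k) ∈ Ls M ↔ (a < 2 ∧ i ≤ 3 * M ∧ k = 0) ∨
    (a = 2 ∧ i < M ∧ k = 0) ∨ (a = 3 ∧ i < 3 * M ∧ k < 2 * M + 2) := by
  simp [Ls]; omega

lemma nodup_Ls (M : ℕ) : (Ls M).Nodup :=
  (List.nodup_range.product (List.nodup_range.product List.nodup_range)).filter _

lemma card_Ls (M : ℕ) : (Ls M).toFinset.card = 2 * (3 * M + 1) + M + 3 * M * (2 * M + 2) ∧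
    ((Ls M).toFinset.filter fun d => d.1 = 1).card = 3 * M + 1 := by
  constructor
  · have : (Ls M).toFinset = (range 2 ×ˢ range (3 * M + 1) ×ˢ {0} ∪ {2} ×ˢ range M ×ˢ {0}) ∪
        {3} ×ˢ range (3 * M) ×ˢ range (2 * M + 2) := by
      ext ⟨a, i, k⟩
      simp only [List.mem_toFinset, mem_Ls, mem_union, mem_product, mem_range, mem_singleton]
      omega
    rw [this, card_union_of_disjoint, card_union_of_disjoint]
    · simp only [card_product, card_range, card_singleton]; ring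
    all_goals
      refine disjoint_left.2 fun ⟨a, i, k⟩ => ?_
      simp only [mem_union, mem_product, mem_range, mem_singleton]
      omega
  · have : ((Ls M).toFinset.filter fun d => d.1 = 1) = {1} ×ˢ range (3 * M + 1) ×ˢ {0} := by
      ext ⟨a, i, k⟩
      simp only [List.mem_toFinset, mem_Ls, mem_filter, mem_product, mem_range, mem_singleton]
      omega
    rw [this]; simp only [card_product, card_range, card_singleton]; ring

def cav (M c s y : ℕ) (l : List (ℕ × Bool)) : Prop :=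
  y < 2 ∨ (y % 2 = 1 ↔ ((s, true) ∈ l ∧ y ≤ 5 + 2 * c) ∨ ((s, false) ∈ l ∧ 2 * M + 6 + 2 * c < y))

def av (φ : List (Cl3 ℕ)) (d : ℕ × ℕ × ℕ) (τ : ℕ) : Prop :=
  (d.1 = 0 ∧ (τ % 2 = d.2.1 % 2 ↔ τ ≤ d.2.1 * (4 * φ.length + 9))) ∨ (d.1 = 1 ∧ τ % 2 = d.2.1 % 2) ∨
    (d.1 = 2 ∧ cav φ.length d.2.1 (τ / (4 * φ.length + 9)) (τ % (4 * φ.length + 9)) (lits φ d.2.1)) ∨
    3 ≤ d.1

instance (φ : List (Cl3 ℕ)) (d : ℕ × ℕ × ℕ) (τ : ℕ) : Decidable (av φ d τ) := by
  unfold av cav; infer_instance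

lemma dm {P s y : ℕ} (h : y < P) : (s * P + y) / P = s ∧ (s * P + y) % P = y := by
  rw [add_comm, Nat.add_mul_div_right _ _ (by omega), Nat.add_mul_mod_self_right,
    Nat.div_eq_of_lt h, Nat.mod_eq_of_lt h]
  omega

lemma par (i M : ℕ) : i * (4 * M + 9) % 2 = i % 2 := by
  rw [show i * (4 * M + 9) = i + 2 * (i * (2 * M + 4)) by ring]; omega

lemma av2 {φ : List (Cl3 ℕ)} {c k s y : ℕ} (h : y < 4 * φ.length + 9) :
    av φ (2, c, k) (s * (4 * φ.length + 9) + y) ↔ cav φ.length c s y (lits φ c) := by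
  simp [av, (dm h).1, (dm h).2]

lemma av0 {φ : List (Cl3 ℕ)} {c k τ : ℕ} :
    av φ (0, c, k) τ ↔ (τ % 2 = c % 2 ↔ τ ≤ c * (4 * φ.length + 9)) := by simp [av]

lemma av1 {φ : List (Cl3 ℕ)} {c k τ : ℕ} : av φ (1, c, k) τ ↔ τ % 2 = c % 2 := by simp [av]

lemma av3 {φ : List (Cl3 ℕ)} {c k τ : ℕ} : av φ (3, c, k) τ ↔ τ ≤ τ + 1 := by simp [av]

lemma split (M τ : ℕ) : ∃ s y, y < 4 * M + 9 ∧ τ = s * (4 * M + 9) + y :=
  ⟨_, _, Nat.mod_lt _ (by omega), (Nat.div_add_mod' τ _).symm⟩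

lemma av_or (φ : List (Cl3 ℕ)) (d : ℕ × ℕ × ℕ) (τ : ℕ) : av φ d τ ∨ av φ d (τ + 1) := by
  obtain ⟨a, i, k⟩ := d
  by_cases h : a = 2
  · subst h
    obtain ⟨s, y, h, rfl⟩ := split φ.length τ
    by_cases h1 : y + 1 < 4 * φ.length + 9
    · rw [add_assoc, av2 h, av2 h1]
      unfold cav
      by_cases a : (s, true) ∈ lits φ i <;> by_cases b : (s, false) ∈ lits φ i <;>
        simp only [a, b, true_and, false_and, or_false, false_or, iff_false] <;> omega
    · right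
      rw [show s * (4 * φ.length + 9) + y + 1 = (s + 1) * (4 * φ.length + 9) + 0 by
        rw [add_mul]; omega, av2 (by omega)]
      exact Or.inl (by omega)
  · have := par i φ.length
    simp only [av, h, false_and, false_or]
    omega

lemma no {φ : List (Cl3 ℕ)} (hv : ∀ C ∈ φ, ∀ x ∈ C.vars, x < 3 * φ.length) {e y : ℕ × ℕ × ℕ → ℕ}
    (h : Ivl (· ∈ (Ls φ.length).toFinset) (av φ)
      (3 * φ.length * (4 * φ.length + 9) + 2 * φ.length + 3) e y) : Sat3 φ := by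
  classical
  obtain ⟨h1, f, fm, h2⟩ := tight (N := 3 * φ.length) h (fun d => d.1 = 1)
    (fun ⟨a, i, k⟩ ha τ => by simp only at ha; simp only [av, ha]; omega) (card_Ls _).2
    (by rw [(card_Ls _).1]; ring)
  set M := φ.length with hM
  set P := 4 * M + 9 with hP
  have m0 : ∀ i ≤ 3 * M, (0, i, 0) ∈ (Ls M).toFinset := fun i hi => by
    rw [List.mem_toFinset, mem_Ls]; omega
  have m2 : ∀ c < M, (2, c, 0) ∈ (Ls M).toFinset := fun i hi => by
    rw [List.mem_toFinset, mem_Ls]; omega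
  have s0 : ∀ i ≤ 3 * M, e (0, i, 0) = i * P ∧ y (0, i, 0) = i * P + 2 := fun i hi => by
    have a := h1 _ (m0 i hi) (by simp)
    have b := (h.1 _ (m0 i hi)).2.2.1
    have := par i M
    simp only [av, ← hM, ← hP] at a b this
    omega
  have f0 : ∀ i ≤ 3 * M, f (i * P) ≤ 3 * M ∧ f (i * P) % 2 = i % 2 := fun i hi => by
    have := h2 _ (m0 i hi)
    rwa [(s0 i hi).1, par] at this
  have f1 : ∀ j i, i + j ≤ 3 * M → f (i * P) + j ≤ f ((i + j) * P) := by
    intro j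
    induction j with
    | zero => simp
    | succ j ih =>
      intro i hi
      have := ih i (by omega)
      have := fm (show (i + j) * P ≤ (i + (j + 1)) * P from Nat.mul_le_mul_right _ (by omega))
      have := f0 (i + j) (by omega); have := f0 (i + (j + 1)) hi
      omega
  have c0 : ∀ c < M, ∃ s < 3 * M, ((s, true) ∈ lits φ c ∧ e (2, c, 0) = s * P + (5 + 2 * c)) ∨
      ((s, false) ∈ lits φ c ∧ e (2, c, 0) = s * P + (2 * M + 6 + 2 * c)) := fun c hc => by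
    obtain ⟨a, a'⟩ := h1 _ (m2 c hc) (by simp)
    obtain ⟨-, b', b, -⟩ := h.1 _ (m2 c hc)
    obtain ⟨s, x, h3, h4⟩ := split M (e (2, c, 0))
    rw [← hP] at h3 h4
    have h5 : s ≤ 3 * M := by
      by_contra h5
      have := Nat.mul_le_mul_right P (show 3 * M + 1 ≤ s by omega)
      rw [add_mul] at this; omega
    have h6 := h.2 _ (m2 c hc) _ (m0 s h5) (by simp)
    rw [(s0 s h5).1, (s0 s h5).2] at h6
    have h7 : x + 1 < P := by
      by_contra h7
      have h8 : s + 1 ≤ 3 * M := by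
        by_contra h8
        rw [show s = 3 * M by omega] at h4; omega
      have h9 := h.2 _ (m2 c hc) _ (m0 _ h8) (by simp)
      rw [(s0 _ h8).1, (s0 _ h8).2, add_mul] at h9
      omega
    rw [h4, av2 h3] at b
    rw [h4, add_assoc, av2 h7] at a
    have lt : ∀ b, (s, b) ∈ lits φ c → s < 3 * M := fun b hb => by
      have := hv _ (List.getElem_mem hc)
      simp only [lits, List.getD_eq_getElem _ _ hc, List.mem_cons, List.not_mem_nil, or_false] at hb
      rcases hb with hb | hb | hb <;> exact this s (by simp [Cl3.vars, ← hb])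
    unfold cav at a b
    by_cases p : (s, true) ∈ lits φ c <;> by_cases q : (s, false) ∈ lits φ c
    · refine ⟨s, lt _ p, ?_⟩
      simp only [p, q, true_and] at a b ⊢; omega
    · refine ⟨s, lt _ p, ?_⟩
      simp only [p, q, true_and, false_and, or_false] at a b ⊢; omega
    · refine ⟨s, lt _ q, ?_⟩
      simp only [p, q, true_and, false_and, false_or] at a b ⊢; omega
    · simp only [p, q, false_and, or_false, iff_false] at a b; omega
  refine ⟨fun s => decide (∃ c < M, e (2, c, 0) = s * P + (5 + 2 * c)), fun C hC => ?_⟩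
  obtain ⟨c, hc, rfl⟩ := List.getElem_of_mem hC
  have ok : ∀ (v : ℕ → Bool) s, (s, v s) ∈ lits φ c → φ[c].ok v := fun v s hs => by
    simp only [lits, List.getD_eq_getElem _ _ hc, List.mem_cons, List.not_mem_nil, or_false] at hs
    rcases hs with hs | hs | hs <;> simp [Cl3.ok, ← hs]
  obtain ⟨s, hs, ⟨a, b⟩ | ⟨a, b⟩⟩ := c0 c hc
  · exact ok _ s (by rwa [decide_eq_true ⟨c, hc, b⟩])
  · refine ok _ s (by
      rw [decide_eq_false]; exact a
      rintro ⟨c', hc', b'⟩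
      have g1 := (h2 _ (m2 c hc)).2
      have g2 := (h2 _ (m2 c' hc')).2
      rw [b] at g1; rw [b'] at g2
      have g3 := fm (show s * P ≤ s * P + (5 + 2 * c') by omega)
      have g4 := fm (show s * P + (5 + 2 * c') ≤ s * P + (2 * M + 6 + 2 * c) by omega)
      have g5 := fm (show s * P + (2 * M + 6 + 2 * c) ≤ (s + 1) * P by rw [add_mul]; omega)
      have g6 := f1 s 0 (by omega)
      have g7 := f1 (3 * M - (s + 1)) (s + 1) (by omega)
      rw [show s + 1 + (3 * M - (s + 1)) = 3 * M by omega] at g7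
      rw [zero_add] at g6
      have := f0 _ le_rfl
      have := par s M
      rw [← hP] at this
      omega)

lemma yes {φ : List (Cl3 ℕ)} (hv : ∀ C ∈ φ, ∀ x ∈ C.vars, x < 3 * φ.length) (h : Sat3 φ) :
    ∃ e y, Ivl (· ∈ (Ls φ.length).toFinset) (av φ)
      (3 * φ.length * (4 * φ.length + 9) + 2 * φ.length + 3) e y := by
  classical
  obtain ⟨v, hv'⟩ := h
  have : ∀ c < φ.length, ∃ s < 3 * φ.length, (s, v s) ∈ lits φ c := fun c hc => by
    have a := hv _ (List.getElem_mem hc)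
    simp only [lits, List.getD_eq_getElem _ _ hc, List.mem_cons, List.not_mem_nil, or_false]
    rcases hv' _ (List.getElem_mem hc) with h | h | h
    · exact ⟨φ[c].1.1, a _ (by simp [Cl3.vars]), Or.inl (by rw [h])⟩
    · exact ⟨φ[c].2.1.1, a _ (by simp [Cl3.vars]), Or.inr (Or.inl (by rw [h]))⟩
    · exact ⟨φ[c].2.2.1, a _ (by simp [Cl3.vars]), Or.inr (Or.inr (by rw [h]))⟩
  choose! x hx using this
  set M := φ.length with hM
  set P := 4 * M + 9 with hP
  have : ∀ d ∈ (Ls M).toFinset, ∃ s o l, s ≤ 3 * M ∧ o + l ≤ P ∧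
      ((d.1 = 0 ∧ s = d.2.1 ∧ o = 0 ∧ l = 2) ∨
      (d.1 = 1 ∧ s = d.2.1 ∧ ((s = 3 * M ∧ o = 2 * M + 2 ∧ l = 1) ∨ (s < 3 * M ∧ l = 3 ∧
        ((v s = true ∧ o = 2) ∨ (v s = false ∧ o = 4 * M + 6))))) ∨
      (d.1 = 2 ∧ s = x d.2.1 ∧ s < 3 * M ∧ l = 2 ∧
        ((v s = true ∧ o = 5 + 2 * d.2.1) ∨ (v s = false ∧ o = 2 * M + 6 + 2 * d.2.1))) ∨
      (d.1 = 3 ∧ l = 2 ∧ ((∃ c < M, s = 3 * M ∧ o = 2 + 2 * c ∧ x c = d.2.1 ∧
        ((v d.2.1 = true ∧ d.2.2 = c) ∨ (v d.2.1 = false ∧ d.2.2 = M + 2 + c))) ∨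
        (s = d.2.1 ∧ (∀ c < M, x c = s →
          ((v s = true → d.2.2 ≠ c) ∧ (v s = false → d.2.2 ≠ M + 2 + c))) ∧
          ((v s = true ∧ o = 5 + 2 * d.2.2) ∨ (v s = false ∧ o = 2 + 2 * d.2.2)))))) := by
    rintro ⟨a, i, k⟩ hd
    rw [List.mem_toFinset, mem_Ls] at hd
    simp only
    rcases hd with ⟨h1, h2, h3⟩ | ⟨h1, h2, h3⟩ | ⟨h1, h2, h3⟩
    · by_cases h4 : a = 0
      · exact ⟨i, 0, 2, h2, by omega, Or.inl ⟨h4, rfl, rfl, rfl⟩⟩
      by_cases h5 : i = 3 * M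
      · exact ⟨i, 2 * M + 2, 1, h2, by omega, Or.inr (Or.inl ⟨by omega, rfl, Or.inl ⟨h5, rfl, rfl⟩⟩)⟩
      cases h6 : v i
      · exact ⟨i, 4 * M + 6, 3, h2, by omega, Or.inr (Or.inl ⟨by omega, rfl,
          Or.inr ⟨by omega, rfl, Or.inr ⟨h6, rfl⟩⟩⟩)⟩
      · exact ⟨i, 2, 3, h2, by omega, Or.inr (Or.inl ⟨by omega, rfl,
          Or.inr ⟨by omega, rfl, Or.inl ⟨h6, rfl⟩⟩⟩)⟩
    · have := (hx i h2).1
      cases h6 : v (x i)
      · exact ⟨x i, _, 2, by omega, by omega, Or.inr (Or.inr (Or.inl ⟨h1, rfl, this, rfl,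
          Or.inr ⟨h6, rfl⟩⟩))⟩
      · exact ⟨x i, _, 2, by omega, by omega, Or.inr (Or.inr (Or.inl ⟨h1, rfl, this, rfl,
          Or.inl ⟨h6, rfl⟩⟩))⟩
    · by_cases h4 : ∃ c < M, x c = i ∧ ((v i = true ∧ k = c) ∨ (v i = false ∧ k = M + 2 + c))
      · obtain ⟨c, a1, a2, a3⟩ := h4
        exact ⟨3 * M, 2 + 2 * c, 2, le_rfl, by omega, Or.inr (Or.inr (Or.inr ⟨h1, rfl,
          Or.inl ⟨c, a1, rfl, rfl, a2, a3⟩⟩))⟩
      · push Not at h4
        cases h6 : v i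
        · exact ⟨i, _, 2, by omega, by omega, Or.inr (Or.inr (Or.inr ⟨h1, rfl,
            Or.inr ⟨rfl, h4, Or.inr ⟨h6, rfl⟩⟩⟩))⟩
        · exact ⟨i, _, 2, by omega, by omega, Or.inr (Or.inr (Or.inr ⟨h1, rfl,
            Or.inr ⟨rfl, h4, Or.inl ⟨h6, rfl⟩⟩⟩))⟩
  choose! s o l hs using this
  refine ⟨fun d => s d * P + o d, fun d => s d * P + o d + l d, fun d hd => ?_, fun d hd d' hd' hn => ?_⟩
  · obtain ⟨h1, h2, h3⟩ := hs d hd
    simp only
    clear hs
    generalize s d = s at *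
    generalize o d = o at *
    generalize l d = l at *
    obtain ⟨a, i, k⟩ := d
    have p := par s M
    have q : s < 3 * M → s * P + P ≤ 3 * M * P := fun h => by
      have := Nat.mul_le_mul_right P (show s + 1 ≤ 3 * M by omega)
      rwa [add_mul, one_mul] at this
    have q' := Nat.mul_le_mul_right P h1
    rw [← hP] at p
    rw [List.mem_toFinset, mem_Ls] at hd
    simp only at h3 ⊢
    rcases h3 with ⟨rfl, rfl, rfl, rfl⟩ | ⟨rfl, rfl, h4⟩ | ⟨rfl, h4, h5, rfl, h6⟩ | ⟨rfl, rfl, h4⟩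
    · rw [av0, av0, ← hM, ← hP]; omega
    · rw [av1, av1]
      rcases h4 with ⟨rfl, rfl, rfl⟩ | ⟨h4, rfl, ⟨-, rfl⟩ | ⟨-, rfl⟩⟩ <;> omega
    · have b := (hx i (by omega)).2
      rw [← h4] at b
      have := q h5
      rw [show s * P + o + 2 - 1 = s * P + (o + 1) by omega, av2 (by omega), av2 (by omega)]
      unfold cav
      rcases h6 with ⟨h6, rfl⟩ | ⟨h6, rfl⟩ <;> rw [h6] at b
      · by_cases c : (s, false) ∈ lits φ i <;> simp only [b, c, true_and, false_and, or_false] <;> omega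
      · by_cases c : (s, true) ∈ lits φ i <;> simp only [b, c, true_and, false_and, false_or] <;> omega
    · rw [av3, av3]
      rcases h4 with ⟨c, a1, rfl, rfl, -⟩ | ⟨rfl, -⟩ <;> omega
  · obtain ⟨h1, h2, h3⟩ := hs d hd
    obtain ⟨g1, g2, g3⟩ := hs d' hd'
    simp only
    generalize s d = s1 at *
    generalize o d = o1 at *
    generalize l d = l1 at *
    generalize s d' = s2 at *
    generalize o d' = o2 at *
    generalize l d' = l2 at *
    rcases lt_trichotomy s1 s2 with h | rfl | h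
    · have := Nat.mul_le_mul_right P (show s1 + 1 ≤ s2 by omega)
      rw [add_mul] at this; omega
    swap
    · have := Nat.mul_le_mul_right P (show s2 + 1 ≤ s1 by omega)
      rw [add_mul] at this; omega
    obtain ⟨a, i, k⟩ := d
    obtain ⟨a', i', k'⟩ := d'
    rw [List.mem_toFinset, mem_Ls] at hd hd'
    simp only [ne_eq, Prod.mk.injEq] at h3 g3 hn
    suffices o1 + l1 ≤ o2 ∨ o2 + l2 ≤ o1 by omega
    clear hs hx hv hv'
    by_contra hc
    rcases h3 with h3 | h3 | h3 | ⟨a1, a2, ⟨c, a3⟩ | h3⟩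
    · grind
    · grind
    · grind
    · rcases g3 with g3 | g3 | g3 | ⟨b1, b2, ⟨c', b3⟩ | g3⟩
      · grind
      · grind
      · grind
      · obtain rfl : c = c' := by omega
        grind
      · grind
    · rcases g3 with g3 | g3 | g3 | ⟨b1, b2, ⟨c', b3⟩ | g3⟩ <;> grind

end Pool.Agent.H.MP_21485e_lc
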